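import Pool.Agent.J6H54.CG.Stm

/-!
# CG-13: the radius
-/

set_option autoImplicit false

namespace Pool.Agent.J6H73.CG13

open Finset Filter Topology
open Pool.Agent.J6H54.CG

section
variable {k : ℕ} {T : Finset Pt}

theorem A_nonneg (h : ℕ) {z : ℝ} (hz : 0 ≤ z) : 0 ≤ A k T h z :=
  sum_nonneg fun _ _ => pow_nonneg hz _

theorem A_zero (z : ℝ) : A k T 0 z = 1 := by
  unfold A
  rw [pow_zero, sum_range_one]
  have : len k T (((0 : ℕ) : ℚ), ((0 : ℕ) : ℤ)) = 0 := by
    rw [Nat.cast_zero, Nat.cast_zero]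
    exact len_zero
  rw [this, pow_zero]

theorem A_cont (h : ℕ) : Continuous (fun z : ℝ => A k T h z) := by
  unfold A
  exact continuous_finset_sum _ fun u _ => continuous_pow _

theorem A_one (h : ℕ) : A k T h 1 = (k : ℝ) ^ h := by
  unfold A
  simp

theorem sup_pow {z : ℝ} (hz : 0 ≤ z) (hm : ∀ h1 h2, A k T h1 z * A k T h2 z ≤ A k T (h1 + h2) z)
    (h n : ℕ) : A k T h z ^ n ≤ A k T (n * h) z := by
  induction n with
  | zero => rw [pow_zero, zero_mul, A_zero]
  | succ n ih =>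
    rw [pow_succ, Nat.succ_mul]
    exact (mul_le_mul_of_nonneg_right ih (A_nonneg h hz)).trans (hm _ _)

theorem sub_pow {K : ℕ} {z : ℝ} (hz : 0 ≤ z)
    (hm : ∀ h1 h2, z ^ K * A k T (h1 + h2) z ≤ A k T h1 z * A k T h2 z)
    (h n : ℕ) : (z ^ K) ^ n * A k T (n * h) z ≤ A k T h z ^ n := by
  induction n with
  | zero => rw [pow_zero, pow_zero, zero_mul, A_zero, one_mul]
  | succ n ih =>
    rw [pow_succ, pow_succ, Nat.succ_mul]
    calc (z ^ K) ^ n * z ^ K * A k T (n * h + h) z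
        = (z ^ K) ^ n * (z ^ K * A k T (n * h + h) z) := by ring
      _ ≤ (z ^ K) ^ n * (A k T (n * h) z * A k T h z) :=
          mul_le_mul_of_nonneg_left (hm _ _) (by positivity)
      _ = (z ^ K) ^ n * A k T (n * h) z * A k T h z := by ring
      _ ≤ A k T h z ^ n * A k T h z := mul_le_mul_of_nonneg_right ih (A_nonneg h hz)

end

theorem m13 (h12 : S_mulA) : S_rho := by
  classical
  intro k T R K C hT hB hK hlo hup
  have hk : 2 ≤ k := hT.two_le
  have hk0 : (0 : ℝ) < k := by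
    have : 0 < k := by omega
    exact_mod_cast this
  have hk1 : (1 : ℝ) ≤ k := by
    have : 1 ≤ k := by omega
    exact_mod_cast this
  have hL : ∀ h u : ℕ, h ≤ R * len k T ((u : ℚ), (h : ℤ)) := by
    intro h u
    have := hlo ((u : ℚ), (h : ℤ)) (ka_nat u)
    simpa using this
  have hm1 : ∀ z : ℝ, 0 < z → z ≤ 1 → ∀ h1 h2, A k T h1 z * A k T h2 z ≤ A k T (h1 + h2) z :=
    fun z hz hz1 h1 h2 => (h12 k T K hT hK h1 h2 z hz hz1).1
  have hm2 : ∀ z : ℝ, 0 < z → z ≤ 1 → ∀ h1 h2,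
      z ^ K * A k T (h1 + h2) z ≤ A k T h1 z * A k T h2 z :=
    fun z hz hz1 h1 h2 => (h12 k T K hT hK h1 h2 z hz hz1).2
  let Z : Set ℝ := {z | 0 < z ∧ z ≤ 1 ∧ ∀ h, A k T h z ≤ 1}
  have hz0 : ((k : ℝ)⁻¹) ^ R ∈ Z := by
    have hi0 : (0 : ℝ) < (k : ℝ)⁻¹ := inv_pos.2 hk0
    have hi1 : (k : ℝ)⁻¹ ≤ 1 := inv_le_one_of_one_le₀ hk1
    refine ⟨by positivity, pow_le_one₀ hi0.le hi1, fun h => ?_⟩
    unfold A
    have h1 : ∀ u ∈ range (k ^ h), (((k : ℝ)⁻¹) ^ R) ^ len k T ((u : ℚ), (h : ℤ)) ≤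
        ((k : ℝ)⁻¹) ^ h := by
      intro u _
      rw [← pow_mul]
      exact pow_le_pow_of_le_one hi0.le hi1 (hL h u)
    refine (sum_le_sum h1).trans ?_
    rw [sum_const, card_range, nsmul_eq_mul, Nat.cast_pow, ← mul_pow, mul_inv_cancel₀ hk0.ne',
      one_pow]
  have hbdd : BddAbove Z := ⟨1, fun z hz => hz.2.1⟩
  obtain ⟨ρ, hρ⟩ : ∃ ρ : ℝ, ρ = sSup Z := ⟨_, rfl⟩
  have hρ0 : 0 < ρ := by
    rw [hρ]
    exact lt_of_lt_of_le hz0.1 (le_csSup hbdd hz0)
  have hρ1 : ρ ≤ 1 := by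
    rw [hρ]
    exact csSup_le ⟨_, hz0⟩ fun z hz => hz.2.1
  have hcl : ∀ h, A k T h ρ ≤ 1 := by
    intro h
    have h1 : ρ ∈ closure Z := by
      rw [hρ]
      exact csSup_mem_closure ⟨_, hz0⟩ hbdd
    have h2 : IsClosed {z : ℝ | A k T h z ≤ 1} := isClosed_le (A_cont h) continuous_const
    exact (closure_minimal (fun z hz => hz.2.2 h) h2) h1
  have hρlt : ρ < 1 := by
    rcases hρ1.lt_or_eq with h | h
    · exact h
    · exfalso
      have h1 := hcl 1
      rw [h, A_one, pow_one] at h1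
      have h2 : (2 : ℝ) ≤ k := by exact_mod_cast hk
      linarith
  have hge : ∀ h, ρ ^ K ≤ A k T h ρ := by
    intro h
    by_contra hcon
    rw [not_le] at hcon
    have hh : 1 ≤ h := by
      rcases Nat.eq_zero_or_pos h with rfl | hh
      · exfalso
        rw [A_zero] at hcon
        exact absurd (pow_le_one₀ hρ0.le hρ1 : ρ ^ K ≤ 1) (not_le.2 hcon)
      · exact hh
    have hopen : IsOpen {z : ℝ | A k T h z < z ^ K} :=
      isOpen_lt (A_cont h) (continuous_pow K)
    obtain ⟨ε, hε, hball⟩ := Metric.isOpen_iff.1 hopen ρ hcon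
    obtain ⟨z, hz1, hz2⟩ : ∃ z : ℝ, ρ < z ∧ z < min 1 (ρ + ε) :=
      exists_between (lt_min hρlt (by linarith))
    have hzlt : z < 1 := hz2.trans_le (min_le_left _ _)
    have hz0' : 0 < z := hρ0.trans hz1
    have hzA : A k T h z < z ^ K := by
      refine hball ?_
      rw [Metric.mem_ball, Real.dist_eq, abs_of_pos (by linarith)]
      have := hz2.trans_le (min_le_right _ _)
      linarith
    have hzZ : z ∈ Z := by
      refine ⟨hz0', hzlt.le, fun h' => ?_⟩
      by_contra hc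
      rw [not_le] at hc
      have hh' : 1 ≤ h' := by
        rcases Nat.eq_zero_or_pos h' with rfl | hh'
        · exfalso
          rw [A_zero] at hc
          exact absurd hc (lt_irrefl _)
        · exact hh'
      have h1 := sup_pow hz0'.le (hm1 z hz0' hzlt.le) h' h
      have h2 := sub_pow hz0'.le (hm2 z hz0' hzlt.le) h h'
      have h3 : 1 < A k T h' z ^ h := one_lt_pow₀ hc (by omega)
      have h4 : A k T h z ^ h' < (z ^ K) ^ h' :=
        pow_lt_pow_left₀ hzA (A_nonneg h hz0'.le) (by omega)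
      have h5 : (z ^ K) ^ h' * A k T (h' * h) z < (z ^ K) ^ h' * 1 := by
        rw [mul_one]
        exact lt_of_le_of_lt h2 h4
      have h6 := lt_of_mul_lt_mul_left h5 (by positivity)
      rw [mul_comm h' h] at h6
      linarith
    have := le_csSup hbdd hzZ
    rw [← hρ] at this
    linarith
  refine ⟨ρ, hρ0, hρlt, ?_, ?_⟩
  · intro q hq hq1 h
    have h1 : A k T h (ρ * q ^ R) ≤ q ^ h * A k T h ρ := by
      unfold A
      rw [mul_sum]
      refine sum_le_sum fun u _ => ?_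
      rw [mul_pow, ← pow_mul, mul_comm]
      exact mul_le_mul_of_nonneg_right (pow_le_pow_of_le_one hq.le hq1 (hL h u)) (by positivity)
    exact h1.trans (mul_le_of_le_one_right (by positivity) (hcl h))
  · intro q hq hq1 h
    have h1 : q ^ (R * (C * (h + 1))) * A k T h ρ ≤ A k T h (ρ * q ^ R) := by
      unfold A
      rw [mul_sum]
      refine sum_le_sum fun u hu => ?_
      rw [mul_pow, ← pow_mul, mul_comm (ρ ^ _)]
      exact mul_le_mul_of_nonneg_right (pow_le_pow_of_le_one hq.le hq1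
        (Nat.mul_le_mul_left R (hup h u (mem_range.1 hu)))) (by positivity)
    refine le_trans ?_ h1
    rw [mul_comm]
    exact mul_le_mul_of_nonneg_left (hge h) (by positivity)

end Pool.Agent.J6H73.CG13
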